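import Mathlib
import Pool.Agent.Helper35.NFinal

set_option autoImplicit false

namespace Pool.Agent.Results.MP_0496af_nt.NowhereSimplyNormal

open Polynomial Filter Topology

/-- The naive height of an integer polynomial: the maximum absolute value of its coefficients. -/
noncomputable def height (P : ℤ[X]) : ℕ := P.support.sup (fun i => (P.coeff i).natAbs)

/-- Mahler's exponent `w_n(ξ)`, in the extended reals. -/
noncomputable def wMahler (ξ : ℝ) (n : ℕ) : EReal :=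
  sSup {W : EReal | ∃ w : ℝ, W = (w : EReal) ∧
    {P : ℤ[X] | P.natDegree ≤ n ∧ 0 < |aeval ξ P| ∧
      |aeval ξ P| ≤ (height P : ℝ) ^ (-w)}.Infinite}

/-- A real T-number: transcendental, `limsup w_n(ξ) / n = ∞` and `w_n(ξ) < ∞` for all `n ≥ 1`. -/
def IsTNumber (ξ : ℝ) : Prop :=
  Transcendental ℚ ξ ∧ limsup (fun n : ℕ => wMahler ξ n / (n : EReal)) atTop = ⊤ ∧
    ∀ n : ℕ, 1 ≤ n → wMahler ξ n < ⊤

/-- The digit number `i + 1` after the point in the base-`b` expansion of the fractional part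
of `ξ`. -/
noncomputable def digit (b : ℕ) (ξ : ℝ) (i : ℕ) : ℕ := ⌊(b : ℝ) ^ (i + 1) * Int.fract ξ⌋₊ % b

/-- `ξ` is simply normal in base `b`: every digit has asymptotic frequency `1 / b`. -/
def SimplyNormal (b : ℕ) (ξ : ℝ) : Prop :=
  ∀ d : ℕ, d < b → Tendsto
    (fun n : ℕ => (((Finset.range n).filter (fun i => digit b ξ i = d)).card : ℝ) / (n : ℝ))
    atTop (𝓝 (1 / (b : ℝ)))

theorem wM_eq (ξ : ℝ) (n : ℕ) : wMahler ξ n =
    sSup {W : EReal | ∃ w : ℝ, W = (w : EReal) ∧ w ∈ Pool.Agent.Helper35.WSet ξ n} := by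
  unfold wMahler
  congr 1
  ext W
  simp only [Set.mem_ofPred_eq]
  refine exists_congr (fun w => and_congr_right (fun _ => ?_))
  unfold Pool.Agent.Helper35.WSet
  simp only [Set.mem_ofPred_eq]
  have : {P : ℤ[X] | P.natDegree ≤ n ∧ 0 < |aeval ξ P| ∧
      |aeval ξ P| ≤ (height P : ℝ) ^ (-w)} = {P : ℤ[X] | P ≠ 0 ∧ P.natDegree ≤ n ∧
      0 < |aeval ξ P| ∧ |aeval ξ P| ≤ (Pool.Agent.Helper35.ht P : ℝ) ^ (-w)} := by
    ext P
    simp only [Set.mem_ofPred_eq]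
    constructor
    · rintro ⟨h1, h2, h3⟩
      refine ⟨?_, h1, h2, h3⟩
      rintro rfl
      simp at h2
    · rintro ⟨_, h1, h2, h3⟩
      exact ⟨h1, h2, h3⟩
  rw [this]

theorem sSup_le_of (S : Set ℝ) (a : ℝ) (h : ∀ w ∈ S, w ≤ a) :
    sSup {W : EReal | ∃ w : ℝ, W = (w : EReal) ∧ w ∈ S} ≤ (a : EReal) := by
  apply sSup_le
  rintro W ⟨w, rfl, hw⟩
  exact_mod_cast h w hw

theorem le_sSup_of (S : Set ℝ) (a : ℝ) (h : ∀ w, w < a → w ∈ S) :
    (a : EReal) ≤ sSup {W : EReal | ∃ w : ℝ, W = (w : EReal) ∧ w ∈ S} := by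
  apply le_of_forall_lt
  intro c hc
  obtain ⟨w, hw1, hw2⟩ := EReal.lt_iff_exists_real_btwn.mp hc
  have hw3 : w < a := by exact_mod_cast hw2
  exact lt_of_lt_of_le hw1 (le_sSup ⟨w, rfl, h w hw3⟩)

/-- A long run of zeros. -/
theorem digit_zero (b : ℕ) (hb : 2 ≤ b) (ξ : ℝ) (h0 : 0 ≤ ξ) (h1 : ξ < 1) (J : ℕ) (c : ℤ)
    (hc1 : (c : ℝ) / (b : ℝ) ^ J ≤ ξ) (hc2 : ξ < (c : ℝ) / (b : ℝ) ^ J + 1 / (b : ℝ) ^ (3 * J))
    (i : ℕ) (hi1 : J ≤ i) (hi2 : i + 1 < 3 * J) : digit b ξ i = 0 := by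
  have hbr : (2 : ℝ) ≤ b := by exact_mod_cast hb
  have hb0 : (0 : ℝ) < b := by linarith
  have hbJ : (0 : ℝ) < (b : ℝ) ^ J := by positivity
  have hc0 : 0 ≤ c := by
    by_contra hneg
    push Not at hneg
    have h2 : (c : ℝ) ≤ -1 := by exact_mod_cast (by omega : c ≤ -1)
    have h3 : (c : ℝ) / (b : ℝ) ^ J ≤ -1 / (b : ℝ) ^ J := by gcongr
    have h4 : 1 / (b : ℝ) ^ (3 * J) ≤ 1 / (b : ℝ) ^ J := by
      apply one_div_le_one_div_of_le hbJ
      exact pow_le_pow_right₀ (by linarith) (by omega)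
    have h5 : -1 / (b : ℝ) ^ J + 1 / (b : ℝ) ^ J = 0 := by ring
    linarith
  obtain ⟨c', rfl⟩ := Int.eq_ofNat_of_zero_le hc0
  have hfr : Int.fract ξ = ξ := Int.fract_eq_self.mpr ⟨h0, h1⟩
  obtain ⟨t, ht⟩ : ∃ t, i + 1 = J + (t + 1) := ⟨i - J, by omega⟩
  have hfloor : ⌊(b : ℝ) ^ (i + 1) * Int.fract ξ⌋₊ = c' * b ^ (t + 1) := by
    rw [hfr, Nat.floor_eq_iff (by positivity)]
    have e1 : (b : ℝ) ^ (i + 1) = (b : ℝ) ^ J * (b : ℝ) ^ (t + 1) := by rw [ht, pow_add]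
    constructor
    · push_cast
      rw [e1]
      rw [div_le_iff₀ hbJ] at hc1
      have h2 : (0 : ℝ) < (b : ℝ) ^ (t + 1) := by positivity
      calc (c' : ℝ) * (b : ℝ) ^ (t + 1) = ((c' : ℤ) : ℝ) * (b : ℝ) ^ (t + 1) := by simp
        _ ≤ (ξ * (b : ℝ) ^ J) * (b : ℝ) ^ (t + 1) := by gcongr
        _ = _ := by ring
    · push_cast
      have h2 : (b : ℝ) ^ (i + 1) * ξ < (b : ℝ) ^ (i + 1) *
          (((c' : ℤ) : ℝ) / (b : ℝ) ^ J + 1 / (b : ℝ) ^ (3 * J)) := by gcongr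
      have h3 : (b : ℝ) ^ (i + 1) * (1 / (b : ℝ) ^ (3 * J)) ≤ 1 := by
        rw [mul_one_div, div_le_one (by positivity)]
        exact pow_le_pow_right₀ (by linarith) (by omega)
      have h4 : (b : ℝ) ^ (i + 1) * (((c' : ℤ) : ℝ) / (b : ℝ) ^ J) = c' * (b : ℝ) ^ (t + 1) := by
        rw [e1]
        simp
        field_simp
      rw [mul_add, h4] at h2
      linarith
  unfold digit
  rw [hfloor, pow_succ, ← mul_assoc]
  exact Nat.mul_mod_left _ _

/-- There is a real T-number that is simply normal in no base. -/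
theorem result : ∃ ξ : ℝ, IsTNumber ξ ∧ ∀ b : ℕ, 2 ≤ b → ¬ SimplyNormal b ξ := by
  obtain ⟨ξ, hξ0, hξ1, hup, hlow, hdig⟩ := Pool.Agent.Helper35.mainN (fun j => 64 * (j + 2) ^ 2)
    (fun j => by
      have : 1 ≤ (j + 2) ^ 2 := Nat.one_le_pow _ _ (by omega)
      omega)
  have hupE : ∀ n : ℕ, ∃ c : ℝ, 0 < c ∧ ∀ P : ℤ[X], P ≠ 0 → P.natDegree ≤ n →
      c ≤ |aeval ξ P| * (Pool.Agent.Helper35.ht P : ℝ) ^ (64 * (n + 1) ^ 2) := by
    intro n
    apply hup n
    · have : n + 1 ≤ (n + 1) ^ 2 := Nat.le_self_pow (by norm_num) _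
      omega
    · intro j hj
      have : (j + 2) ^ 2 ≤ (n + 1) ^ 2 := Nat.pow_le_pow_left (by omega) 2
      omega
  have hne : ∀ P : ℤ[X], P ≠ 0 → aeval ξ P ≠ 0 := by
    intro P hP hz
    obtain ⟨c, hc, hcc⟩ := hupE P.natDegree
    have := hcc P hP le_rfl
    rw [hz, abs_zero, zero_mul] at this
    linarith
  have hξlt : ξ < 1 := by
    refine lt_of_le_of_ne hξ1 (fun h => hne (X - 1) ?_ ?_)
    · exact X_sub_C_ne_zero (1 : ℤ)
    · rw [map_sub, aeval_X, map_one, h, sub_self]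
  refine ⟨ξ, ⟨?_, ?_, ?_⟩, ?_⟩
  · intro hc
    rw [← IsFractionRing.isAlgebraic_iff ℤ ℚ ℝ] at hc
    obtain ⟨P, hP, h0⟩ := hc
    exact hne P hP h0
  · -- the limsup is infinite
    rw [EReal.eq_top_iff_forall_lt]
    intro y
    have hfreq : ∃ᶠ n : ℕ in atTop, ((y + 1 : ℝ) : EReal) ≤ wMahler ξ n / (n : EReal) := by
      rw [frequently_atTop]
      intro a
      obtain ⟨j, hj⟩ := exists_nat_ge (|y| + a)
      have hyj : |y| ≤ j := by
        have : (0 : ℝ) ≤ a := Nat.cast_nonneg a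
        linarith
      have haj : a ≤ j := by
        have h2 : (a : ℝ) ≤ j := by
          have := abs_nonneg y
          linarith
        exact_mod_cast h2
      refine ⟨j + 1, by omega, ?_⟩
      have h1 : (((64 * (j + 2) ^ 2 : ℕ) : ℝ) - 1 : ℝ) ≤ wMahler ξ (j + 1) := by
        rw [wM_eq]
        apply le_sSup_of
        intro w hw
        exact hlow j w hw
      have hn0 : (0 : EReal) ≤ ((j + 1 : ℕ) : EReal) := by exact_mod_cast Nat.zero_le _
      have h2 : (((((64 * (j + 2) ^ 2 : ℕ) : ℝ) - 1 : ℝ) : EReal)) / ((j + 1 : ℕ) : EReal) ≤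
          wMahler ξ (j + 1) / ((j + 1 : ℕ) : EReal) :=
        EReal.div_le_div_right_of_nonneg hn0 h1
      refine le_trans ?_ h2
      have e : (((((64 * (j + 2) ^ 2 : ℕ) : ℝ) - 1 : ℝ) : EReal)) / ((j + 1 : ℕ) : EReal) =
          (((((64 * (j + 2) ^ 2 : ℕ) : ℝ) - 1) / ((j + 1 : ℕ) : ℝ) : ℝ) : EReal) := by
        rw [EReal.coe_div]; rfl
      rw [e]
      have h3 : y + 1 ≤ (((64 * (j + 2) ^ 2 : ℕ) : ℝ) - 1) / ((j + 1 : ℕ) : ℝ) := by
        rw [le_div_iff₀ (by positivity)]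
        have hy : y ≤ j := (le_abs_self y).trans hyj
        have hj0 : (0 : ℝ) ≤ j := Nat.cast_nonneg j
        push_cast
        nlinarith
      exact_mod_cast h3
    have h2 : ((y + 1 : ℝ) : EReal) ≤
        limsup (fun n : ℕ => wMahler ξ n / (n : EReal)) atTop :=
      le_limsup_of_frequently_le hfreq (by isBoundedDefault)
    refine lt_of_lt_of_le ?_ h2
    have : y < y + 1 := by linarith
    exact_mod_cast this
  · intro n _
    obtain ⟨c, hc, hcc⟩ := hupE n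
    rw [wM_eq]
    exact lt_of_le_of_lt (sSup_le_of _ _
      (fun w hw => Pool.Agent.Helper35.WSet_le ξ n _ c hc hcc w hw)) (EReal.coe_lt_top _)
  · intro b hb hsn
    have hbr : (2 : ℝ) ≤ b := by exact_mod_cast hb
    have hlim := hsn 0 (by omega)
    have hhalf : 1 / (b : ℝ) < 3 / 5 := by
      rw [div_lt_div_iff₀ (by linarith) (by norm_num)]
      linarith
    have hev := hlim.eventually_lt_const hhalf
    obtain ⟨N0, hN0⟩ := eventually_atTop.mp hev
    obtain ⟨J, hJ, c, hc1, hc2⟩ := hdig b hb (N0 + 2)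
    have h1 := hN0 (3 * J - 1) (by omega)
    have hcard : 2 * J - 1 ≤
        ((Finset.range (3 * J - 1)).filter (fun i => digit b ξ i = 0)).card := by
      have hsub : Finset.Ico J (3 * J - 1) ⊆
          (Finset.range (3 * J - 1)).filter (fun i => digit b ξ i = 0) := by
        intro i hi
        rw [Finset.mem_Ico] at hi
        rw [Finset.mem_filter, Finset.mem_range]
        exact ⟨hi.2, digit_zero b hb ξ hξ0 hξlt J c hc1 hc2 i hi.1 (by omega)⟩
      have h2 := Finset.card_le_card hsub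
      rw [Nat.card_Ico] at h2
      omega
    have hJ2 : 2 ≤ J := by omega
    have h3 : (0 : ℝ) < ((3 * J - 1 : ℕ) : ℝ) := by
      have : 0 < 3 * J - 1 := by omega
      exact_mod_cast this
    rw [div_lt_iff₀ h3] at h1
    have h4 : ((2 * J - 1 : ℕ) : ℝ) ≤
        (((Finset.range (3 * J - 1)).filter (fun i => digit b ξ i = 0)).card : ℝ) := by
      exact_mod_cast hcard
    have h5 : ((2 * J - 1 : ℕ) : ℝ) = 2 * J - 1 := by
      rw [Nat.cast_sub (by omega)]; push_cast; ring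
    have h6 : ((3 * J - 1 : ℕ) : ℝ) = 3 * J - 1 := by
      rw [Nat.cast_sub (by omega)]; push_cast; ring
    have h7 : (2 : ℝ) ≤ J := by exact_mod_cast hJ2
    rw [h6] at h1
    rw [h5] at h4
    linarith

end Pool.Agent.Results.MP_0496af_nt.NowhereSimplyNormal
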